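import Pool.Agent.Lib.helper3.WIdeal

namespace Pool.Agent.Results.MP_6afee3_an.Example

open Filter Topology

/-- The discrete group `⊕ ℤ/2`. -/
abbrev G : Type := ℕ →₀ ZMod 2

/-- `M(G) = ℓ¹(G)` for the discrete group `G`. -/
abbrev M : Type := lp (fun _ : G => ℂ) 1

/-- `C₀(G)`. -/
def C0 : Type := {φ : G → ℂ // Tendsto φ cofinite (𝓝 0)}

/-- Convolution. -/
noncomputable def conv (a f : M) (x : G) : ℂ := ∑' y, a y * f (x - y)

/-- The pairing of `M(G)` with `C₀(G)`. -/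
noncomputable def pair (f : M) (φ : C0) : ℂ := ∑' x, f x * φ.1 x

/-- Closed for the weak* topology `σ(M(G), C₀(G))`. -/
def WStarClosed (J : Set M) : Prop :=
  @IsClosed M (TopologicalSpace.induced pair inferInstance) J

open Pool.Agent.Lib.helper3 in
/-- A weak*-closed left ideal of `M(G)` that is not finitely generated. -/
theorem result : ∃ J : Submodule ℂ M, (∀ a : M, ∀ f ∈ J, ∃ h ∈ J, ∀ x, h x = conv a f x) ∧
    WStarClosed J ∧ ¬ ∃ (n : ℕ) (μ : Fin n → M), (∀ i, μ i ∈ J) ∧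
      ∀ f ∈ J, ∃ a : Fin n → M, ∀ x, f x = ∑ i, conv (a i) (μ i) x := by
  refine ⟨WI.J, fun a f hf => ⟨_, WI.cv_mem a hf, WI.cv_ap a f⟩, ?_, fun ⟨n, μ, h1, h2⟩ =>
    WI.not_fg n μ h1 fun f hf => ?_⟩
  · let ψ : ℕ → G → C0 := fun k x => ⟨fun y => WI.u (2 * k) (x - y),
      (tendsto_zero_iff_norm_tendsto_zero.2
        (PS.hasSum_nm (WI.u (2 * k))).summable.tendsto_cofinite_zero).comp
        sub_right_injective.tendsto_cofinite⟩
    refine isClosed_induced_iff.2 ⟨⋂ k, ⋂ x, {Φ : C0 → ℂ | Φ (ψ k x) = 0},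
      isClosed_iInter fun k => isClosed_iInter fun x =>
        isClosed_eq (continuous_apply _) continuous_const, Set.ext fun f => ?_⟩
    simp only [Set.mem_preimage, Set.mem_iInter]
    exact ⟨fun h => WI.mem_J.2 fun k => PS.ext' fun x => (WI.cv_ap f _ x).trans (h k x),
      fun h k x => (WI.cv_ap f _ x).symm.trans (congrArg (fun f : M => f x) (WI.mem_J.1 h k))⟩
  · obtain ⟨a, ha⟩ := h2 f hf
    refine ⟨a, PS.ext' fun x => (ha x).trans ?_⟩
    rw [← PS.crd_ap x (∑ i, _), map_sum]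
    exact Finset.sum_congr rfl fun i _ => (WI.cv_ap _ _ x).symm

end Pool.Agent.Results.MP_6afee3_an.Example
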